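import Pool.Agent.Helper9.Ends.Defs

/-! # EN-1: the Cauchy-Pompeiu formula for compactly supported functions -/

set_option autoImplicit false

open Set Filter Metric Topology MeasureTheory
open scoped ContDiff
open Pool.Agent.Helper61.KS

namespace Pool.Agent.EN

/-- the point of the unit circle with argument `t` -/
noncomputable def pompE (t : ℝ) : ℂ := (Real.cos t : ℂ) + (Real.sin t : ℂ) * Complex.I

theorem pompE_continuous : Continuous pompE := by
  unfold pompE
  fun_prop

theorem pompE_norm (t : ℝ) : ‖pompE t‖ = 1 := by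
  unfold pompE
  push_cast
  rw [← Complex.exp_mul_I, Complex.norm_exp_ofReal_mul_I]

theorem pompE_ne (t : ℝ) : pompE t ≠ 0 := by
  intro h
  have := pompE_norm t
  rw [h, norm_zero] at this
  exact zero_ne_one this

theorem pompE_hasDerivAt (t : ℝ) : HasDerivAt pompE (Complex.I * pompE t) t := by
  have h1 := (Real.hasDerivAt_cos t).ofReal_comp
  have h2 := (Real.hasDerivAt_sin t).ofReal_comp.mul_const Complex.I
  have h3 : HasDerivAt pompE (((-Real.sin t : ℝ) : ℂ) + ((Real.cos t : ℝ) : ℂ) * Complex.I) t :=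
    h1.add h2
  refine h3.congr_deriv ?_
  unfold pompE
  push_cast
  linear_combination -(Complex.sin (t : ℂ)) * Complex.I_mul_I

theorem pomp_bound {φ : ℂ → ℂ} (hc : HasCompactSupport φ) (z : ℂ) :
    ∃ R : ℝ, 0 < R ∧ ∀ w, R < ‖w - z‖ → w ∉ tsupport φ := by
  obtain ⟨R, hR⟩ := hc.isCompact.isBounded.subset_closedBall z
  refine ⟨max R 1, by positivity, fun w hw h => ?_⟩
  have h1 := hR h
  rw [mem_closedBall, dist_eq_norm] at h1
  have := le_max_left R 1
  linarith

theorem pomp_cont {φ : ℂ → ℂ} (hφ : ContDiff ℝ 1 φ) (z : ℂ) {v : ℝ → ℂ} (hv : Continuous v) :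
    Continuous fun p : ℝ × ℝ => fderiv ℝ φ (z + p.1 * pompE p.2) (v p.2) := by
  have h1 : Continuous (fderiv ℝ φ) := hφ.continuous_fderiv (by norm_num)
  have h2 : Continuous fun p : ℝ × ℝ => z + p.1 * pompE p.2 :=
    continuous_const.add ((Complex.continuous_ofReal.comp continuous_fst).mul
      (pompE_continuous.comp continuous_snd))
  exact (h1.comp h2).clm_apply (hv.comp continuous_snd)

theorem pomp_fderiv_zero {φ : ℂ → ℂ} {w : ℂ} (hw : w ∉ tsupport φ) : fderiv ℝ φ w = 0 := by
  rw [notMem_tsupport_iff_eventuallyEq] at hw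
  rw [hw.fderiv_eq]
  exact (hasFDerivAt_const (0 : ℂ) w).fderiv

theorem pomp_intOn {φ : ℂ → ℂ} (hφ : ContDiff ℝ 1 φ) (hc : HasCompactSupport φ) (z : ℂ)
    {v : ℝ → ℂ} (hv : Continuous v) :
    IntegrableOn (fun p : ℝ × ℝ => fderiv ℝ φ (z + p.1 * pompE p.2) (v p.2))
      (Ioi 0 ×ˢ Ioo (-Real.pi) Real.pi) := by
  obtain ⟨R, hR, hR'⟩ := pomp_bound hc z
  have h1 : IntegrableOn (fun p : ℝ × ℝ => fderiv ℝ φ (z + p.1 * pompE p.2) (v p.2))
      (Icc 0 R ×ˢ Icc (-Real.pi) Real.pi) :=
    (pomp_cont hφ z hv).continuousOn.integrableOn_compact (isCompact_Icc.prod isCompact_Icc)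
  refine h1.of_forall_sdiff_eq_zero (measurableSet_Ioi.prod measurableSet_Ioo) fun p hp => ?_
  have hpR : R < p.1 := by
    by_contra hcon
    push Not at hcon
    exact hp.2 ⟨⟨(le_of_lt hp.1.1), hcon⟩, ⟨hp.1.2.1.le, hp.1.2.2.le⟩⟩
  have h2 : z + p.1 * pompE p.2 ∉ tsupport φ := by
    apply hR'
    rw [add_sub_cancel_left, norm_mul, pompE_norm, mul_one, Complex.norm_real, Real.norm_eq_abs]
    exact hpR.trans_le (le_abs_self _)
  rw [pomp_fderiv_zero h2]
  rfl

theorem pompeiu_integrable {φ : ℂ → ℂ} (hφ : ContDiff ℝ 1 φ) (hc : HasCompactSupport φ) (z : ℂ) :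
    Integrable fun w => dzbar φ w / (z - w) := by
  have hcf : Continuous (fderiv ℝ φ) := hφ.continuous_fderiv (by norm_num)
  have hdz : Continuous (dzbar φ) := by
    unfold dzbar
    exact ((hcf.clm_apply continuous_const).add
      (continuous_const.mul (hcf.clm_apply continuous_const))).div_const _
  have hmeas : AEStronglyMeasurable (fun w => dzbar φ w / (z - w)) volume := by
    refine (hdz.measurable.div (measurable_const.sub measurable_id)).aestronglyMeasurable
  have hInt : IntegrableOn (fun p : ℝ × ℝ => dzbar φ (z + p.1 * pompE p.2))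
      (Ioi 0 ×ˢ Ioo (-Real.pi) Real.pi) := by
    have h1 := pomp_intOn hφ hc z (v := fun _ => 1) continuous_const
    have h2 := pomp_intOn hφ hc z (v := fun _ => Complex.I) continuous_const
    exact (h1.add (h2.const_mul Complex.I)).div_const 2
  have hG : Integrable (fun u => dzbar φ (z + u) / (-u)) := by
    refine ⟨((hdz.comp (continuous_const.add continuous_id)).measurable.div
      measurable_neg).aestronglyMeasurable, ?_⟩
    have h3 : ∫⁻ p in polarCoord.target, ‖dzbar φ (z + p.1 * pompE p.2)‖ₑ < ⊤ := hInt.2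
    rw [HasFiniteIntegral, ← Complex.lintegral_comp_polarCoord_symm]
    refine lt_of_le_of_lt (le_of_eq ?_) h3
    refine setLIntegral_congr_fun (measurableSet_Ioi.prod measurableSet_Ioo) fun p hp => ?_
    have hp1 : (0 : ℝ) < p.1 := hp.1
    have hs : Complex.polarCoord.symm p = p.1 * pompE p.2 := Complex.polarCoord_symm_apply p
    rw [hs, smul_eq_mul, ← ofReal_norm, ← ofReal_norm, ← ENNReal.ofReal_mul hp1.le, norm_div,
      norm_neg, norm_mul, pompE_norm, Complex.norm_real, Real.norm_eq_abs, abs_of_pos hp1]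
    congr 1
    field_simp
  have h4 := hG.comp_sub_right z
  refine h4.congr (Eventually.of_forall fun w => ?_)
  dsimp only
  congr 1 <;> ring_nf

theorem pompeiu {φ : ℂ → ℂ} (hφ : ContDiff ℝ 1 φ) (hc : HasCompactSupport φ) (z : ℂ) :
    ∫ w, dzbar φ w / (z - w) = Real.pi * φ z := by
  obtain ⟨R, hR, hR'⟩ := pomp_bound hc z
  have e1 : ∫ w, dzbar φ w / (z - w) = ∫ u, dzbar φ (z + u) / (-u) := by
    rw [← integral_add_left_eq_self _ z]
    refine integral_congr_ae (Eventually.of_forall fun u => ?_)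
    dsimp only
    congr 1
    ring
  have hA := pomp_intOn hφ hc z pompE_continuous
  have hB := pomp_intOn hφ hc z (v := fun t => Complex.I * pompE t)
    (continuous_const.mul pompE_continuous)
  have e2 : ∫ u, dzbar φ (z + u) / (-u) =
      ∫ p in Ioi (0 : ℝ) ×ˢ Ioo (-Real.pi) Real.pi,
        (-(1 / 2) * fderiv ℝ φ (z + p.1 * pompE p.2) (pompE p.2) +
          -(Complex.I / 2) * fderiv ℝ φ (z + p.1 * pompE p.2) (Complex.I * pompE p.2)) := by
    rw [← Complex.integral_comp_polarCoord_symm]
    refine setIntegral_congr_fun (measurableSet_Ioi.prod measurableSet_Ioo) fun p hp => ?_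
    have hp1 : (0 : ℝ) < p.1 := hp.1
    have hp1' : (p.1 : ℂ) ≠ 0 := by exact_mod_cast hp1.ne'
    have hs : Complex.polarCoord.symm p = p.1 * pompE p.2 := Complex.polarCoord_symm_apply p
    rw [hs]
    set L := fderiv ℝ φ (z + p.1 * pompE p.2) with hL
    have h1 : L (pompE p.2) = (Real.cos p.2 : ℂ) * L 1 + (Real.sin p.2 : ℂ) * L Complex.I := by
      have : pompE p.2 = Real.cos p.2 • (1 : ℂ) + Real.sin p.2 • Complex.I := by
        unfold pompE
        simp [Complex.real_smul]
      rw [this, map_add, map_smul, map_smul, Complex.real_smul, Complex.real_smul]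
    have h2 : L (Complex.I * pompE p.2) =
        -(Real.sin p.2 : ℂ) * L 1 + (Real.cos p.2 : ℂ) * L Complex.I := by
      have : Complex.I * pompE p.2 = (-Real.sin p.2) • (1 : ℂ) + Real.cos p.2 • Complex.I := by
        unfold pompE
        simp only [Complex.real_smul]
        push_cast
        linear_combination (Complex.sin (p.2 : ℂ)) * Complex.I_mul_I
      rw [this, map_add, map_smul, map_smul, Complex.real_smul, Complex.real_smul]
      push_cast
      ring
    have h3 : dzbar φ (z + p.1 * pompE p.2) = (L 1 + Complex.I * L Complex.I) / 2 := rfl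
    rw [h1, h2, h3, Complex.real_smul]
    have h4 := pompE_ne p.2
    have h5 : (Real.cos p.2 : ℂ) ^ 2 + (Real.sin p.2 : ℂ) ^ 2 = 1 := by
      exact_mod_cast Real.cos_sq_add_sin_sq p.2
    have h6 : (Real.cos p.2 : ℂ) - (Real.sin p.2 : ℂ) * Complex.I = (pompE p.2)⁻¹ := by
      refine eq_inv_of_mul_eq_one_left ?_
      unfold pompE
      linear_combination h5 - (Real.sin p.2 : ℂ) ^ 2 * Complex.I_mul_I
    have h7 : (p.1 : ℂ) * ((L 1 + Complex.I * L Complex.I) / 2 / -((p.1 : ℂ) * pompE p.2)) =
        -(1 / 2) * (pompE p.2)⁻¹ * (L 1 + Complex.I * L Complex.I) := by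
      field_simp
    rw [h7, ← h6]
    linear_combination (1 / 2 * (Real.sin p.2 : ℂ) * L Complex.I) * Complex.I_mul_I
  rw [e1, e2, integral_add (hA.const_mul _) (hB.const_mul _), integral_const_mul,
    integral_const_mul]
  have e3 : ∫ p in Ioi (0 : ℝ) ×ˢ Ioo (-Real.pi) Real.pi,
      fderiv ℝ φ (z + p.1 * pompE p.2) (pompE p.2) = -(2 * Real.pi) * φ z := by
    have hA' : Integrable (fun p : ℝ × ℝ => fderiv ℝ φ (z + p.1 * pompE p.2) (pompE p.2))
        ((volume.restrict (Ioi 0)).prod (volume.restrict (Ioo (-Real.pi) Real.pi))) := by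
      rw [Measure.prod_restrict]; exact hA
    have h1 : ∫ p in Ioi (0 : ℝ) ×ˢ Ioo (-Real.pi) Real.pi,
        fderiv ℝ φ (z + p.1 * pompE p.2) (pompE p.2) =
        ∫ p : ℝ × ℝ, fderiv ℝ φ (z + p.1 * pompE p.2) (pompE p.2)
          ∂((volume.restrict (Ioi (0 : ℝ))).prod (volume.restrict (Ioo (-Real.pi) Real.pi))) := by
      rw [Measure.prod_restrict]; rfl
    rw [h1, integral_prod_symm _ hA']
    have h2 : ∀ t : ℝ, ∫ r in Ioi (0 : ℝ), fderiv ℝ φ (z + r * pompE t) (pompE t) = -φ z := by
      intro t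
      have hline : ∀ r : ℝ, HasDerivAt (fun r : ℝ => z + (r : ℂ) * pompE t) (pompE t) r := by
        intro r
        have := ((Complex.ofRealCLM.hasDerivAt (x := r)).mul_const (pompE t)).const_add z
        simpa using this
      have hder : ∀ r : ℝ, HasDerivAt (fun r : ℝ => φ (z + (r : ℂ) * pompE t))
          (fderiv ℝ φ (z + r * pompE t) (pompE t)) r := by
        intro r
        have hd : HasFDerivAt φ (fderiv ℝ φ (z + r * pompE t)) (z + r * pompE t) :=
          (hφ.differentiable (by norm_num)).differentiableAt.hasFDerivAt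
        exact hd.comp_hasDerivAt r (hline r)
      have hcd : ContDiff ℝ 1 (fun r : ℝ => φ (z + (r : ℂ) * pompE t)) := by
        refine hφ.comp (contDiff_const.add ?_)
        exact Complex.ofRealCLM.contDiff.mul contDiff_const
      have hcs : HasCompactSupport (fun r : ℝ => φ (z + (r : ℂ) * pompE t)) := by
        refine HasCompactSupport.intro (isCompact_Icc (a := -R) (b := R)) fun r hr => ?_
        refine image_eq_zero_of_notMem_tsupport (hR' _ ?_)
        rw [add_sub_cancel_left, norm_mul, pompE_norm, mul_one, Complex.norm_real,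
          Real.norm_eq_abs]
        by_contra hcon
        push Not at hcon
        exact hr (abs_le.1 hcon)
      have h3 := hcs.integral_Ioi_deriv_eq hcd 0
      have h4 : ∫ r in Ioi (0 : ℝ), fderiv ℝ φ (z + r * pompE t) (pompE t) =
          ∫ r in Ioi (0 : ℝ), deriv (fun r : ℝ => φ (z + (r : ℂ) * pompE t)) r :=
        integral_congr_ae (Eventually.of_forall fun r => (hder r).deriv.symm)
      rw [h4, h3]
      simp
    simp only [h2]
    rw [setIntegral_const]
    rw [Real.volume_real_Ioo_of_le (show -Real.pi ≤ Real.pi by linarith [Real.pi_pos]),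
      Complex.real_smul]
    push_cast
    ring
  have e4 : ∫ p in Ioi (0 : ℝ) ×ˢ Ioo (-Real.pi) Real.pi,
      fderiv ℝ φ (z + p.1 * pompE p.2) (Complex.I * pompE p.2) = 0 := by
    rw [Measure.volume_eq_prod, setIntegral_prod _ (by rw [← Measure.volume_eq_prod]; exact hB)]
    rw [setIntegral_congr_fun (g := fun _ => (0 : ℂ)) measurableSet_Ioi, integral_zero]
    intro r hr
    have hr0 : (0 : ℝ) < r := hr
    have hr0' : (r : ℂ) ≠ 0 := by exact_mod_cast hr0.ne'
    dsimp only
    rw [← integral_Ioc_eq_integral_Ioo, ← intervalIntegral.integral_of_le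
      (by linarith [Real.pi_pos])]
    have hder : ∀ t : ℝ, HasDerivAt (fun t : ℝ => φ (z + (r : ℂ) * pompE t) / r)
        (fderiv ℝ φ (z + r * pompE t) (Complex.I * pompE t)) t := by
      intro t
      have hd : HasFDerivAt φ (fderiv ℝ φ (z + r * pompE t)) (z + r * pompE t) :=
        (hφ.differentiable (by norm_num)).differentiableAt.hasFDerivAt
      have h1 := (hd.comp_hasDerivAt t (((pompE_hasDerivAt t).const_mul (r : ℂ)).const_add z)).div_const
        (r : ℂ)
      refine h1.congr_deriv ?_
      have h2 : (r : ℂ) * (Complex.I * pompE t) = r • (Complex.I * pompE t) := by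
        rw [Complex.real_smul]
      rw [h2, map_smul, Complex.real_smul, mul_div_cancel_left₀ _ hr0']
    rw [intervalIntegral.integral_eq_sub_of_hasDerivAt (fun t _ => hder t)]
    · have : pompE Real.pi = pompE (-Real.pi) := by unfold pompE; simp
      rw [this, sub_self]
    · have hcB := (pomp_cont hφ z (v := fun t => Complex.I * pompE t)
        (continuous_const.mul pompE_continuous)).comp (Continuous.prodMk (continuous_const (y := r)) continuous_id)
      exact hcB.intervalIntegrable _ _
  rw [e3, e4]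
  ring

end Pool.Agent.EN
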