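import Pool.Agent.Helper9.Ends.Defs

/-! # EN-4b: Hurwitz theorem for injective functions, along a filter -/

set_option autoImplicit false

open Set Filter Metric Topology MeasureTheory
open scoped ContDiff
open Pool.Agent.Helper61.KS

namespace Pool.Agent.EN

/-- EN-4b: Hurwitz -/
theorem hurwitz_inj {D : Set ℂ} (hD : IsOpen D) (hc : IsPreconnected D) {l : Filter ℕ} [l.NeBot]
    {F : ℕ → ℂ → ℂ} {f : ℂ → ℂ} (hF : ∀ n, DifferentiableOn ℂ (F n) D)
    (hinj : ∀ n, InjOn (F n) D) (hlim : TendstoLocallyUniformlyOn F f l D)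
    (hne : ∃ z ∈ D, deriv f z ≠ 0) : InjOn f D := by
  intro a ha b hb hab
  by_contra hne_ab
  have hfd : DifferentiableOn ℂ f D :=
    hlim.differentiableOn (Eventually.of_forall hF) hD
  have hg : AnalyticOnNhd ℂ (fun z => f z - f a) D :=
    (hfd.sub_const _).analyticOnNhd hD
  -- `b` is an isolated zero
  have hiso : ∀ᶠ z in 𝓝[≠] b, f z - f a ≠ 0 := by
    by_contra hcon
    have hfr : ∃ᶠ z in 𝓝[≠] b, (fun z => f z - f a) z = 0 := by
      simpa [Filter.not_eventually] using hcon
    have hz := hg.eqOn_zero_of_preconnected_of_frequently_eq_zero hc hb hfr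
    obtain ⟨z, hzD, hz'⟩ := hne
    apply hz'
    have h1 : f =ᶠ[𝓝 z] fun _ => f a := by
      filter_upwards [hD.mem_nhds hzD] with w hw
      have := hz hw
      simpa [sub_eq_zero] using this
    rw [h1.deriv_eq, deriv_const]
  obtain ⟨ε₁, hε₁, hε₁'⟩ := Metric.isOpen_iff.1 hD b hb
  rw [eventually_nhdsWithin_iff, Metric.eventually_nhds_iff] at hiso
  obtain ⟨ε₂, hε₂, hiso⟩ := hiso
  have hdab : 0 < dist a b := dist_pos.2 hne_ab
  set r := min (min ε₁ ε₂) (dist a b) / 2 with hr
  have hr0 : 0 < r := by rw [hr]; positivity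
  have hr1 : r < ε₁ := by
    have : min (min ε₁ ε₂) (dist a b) ≤ ε₁ := (min_le_left _ _).trans (min_le_left _ _)
    rw [hr]; linarith
  have hr2 : r < ε₂ := by
    have : min (min ε₁ ε₂) (dist a b) ≤ ε₂ := (min_le_left _ _).trans (min_le_right _ _)
    rw [hr]; linarith
  have hr3 : r < dist a b := by
    have : min (min ε₁ ε₂) (dist a b) ≤ dist a b := min_le_right _ _
    rw [hr]; linarith
  have hBD : closedBall b r ⊆ D := (closedBall_subset_ball hr1).trans hε₁'
  -- lower bound on the circle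
  obtain ⟨δ, hδ, hδ'⟩ : ∃ δ > 0, ∀ z ∈ sphere b r, δ ≤ ‖f z - f a‖ := by
    have hcont : ContinuousOn (fun z => ‖f z - f a‖) (sphere b r) :=
      ((hfd.continuousOn.mono (sphere_subset_closedBall.trans hBD)).sub continuousOn_const).norm
    obtain ⟨z, hz, hmin⟩ := (isCompact_sphere b r).exists_isMinOn
      (NormedSpace.sphere_nonempty.2 hr0.le) hcont
    refine ⟨‖f z - f a‖, norm_pos_iff.2 (hiso ?_ ?_), fun w hw => hmin hw⟩
    · rw [mem_sphere] at hz; linarith
    · intro h
      rw [mem_singleton_iff] at h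
      rw [h, mem_sphere, dist_self] at hz
      linarith
  -- uniform convergence
  have hK : IsCompact (closedBall b r ∪ {a}) := (isCompact_closedBall b r).union isCompact_singleton
  have hKD : closedBall b r ∪ {a} ⊆ D := union_subset hBD (singleton_subset_iff.2 ha)
  have hun := (tendstoLocallyUniformlyOn_iff_forall_isCompact hD).1 hlim _ hKD hK
  rw [Metric.tendstoUniformlyOn_iff] at hun
  obtain ⟨n, hn⟩ := (hun (δ / 8) (by positivity)).exists
  have hna := hn a (Or.inr rfl)
  have hdiff : ∀ z ∈ closedBall b r, ‖(f z - f a) - (F n z - F n a)‖ < δ / 4 := by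
    intro z hz
    have h1 := hn z (Or.inl hz)
    rw [dist_eq_norm] at h1 hna
    calc ‖(f z - f a) - (F n z - F n a)‖ = ‖(f z - F n z) - (f a - F n a)‖ := by ring_nf
      _ ≤ ‖f z - F n z‖ + ‖f a - F n a‖ := norm_sub_le _ _
      _ < δ / 4 := by linarith
  have hnz : ∀ z ∈ closedBall b r, F n z - F n a ≠ 0 := by
    intro z hz h0
    have h1 : z = a := hinj n (hBD hz) ha (sub_eq_zero.1 h0)
    rw [h1, mem_closedBall] at hz
    linarith
  have hFc : ∀ z ∈ closedBall b r, DifferentiableAt ℂ (F n) z := fun z hz =>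
    (hF n z (hBD hz)).differentiableAt (hD.mem_nhds (hBD hz))
  have hdc : DiffContOnCl ℂ (fun z => (F n z - F n a)⁻¹) (ball b r) := by
    have : DifferentiableOn ℂ (fun z => (F n z - F n a)⁻¹) (closure (ball b r)) := by
      rw [closure_ball b hr0.ne']
      intro z hz
      exact (((hFc z hz).sub_const _).inv (hnz z hz)).differentiableWithinAt
    exact this.diffContOnCl
  have hmax : ‖(F n b - F n a)⁻¹‖ ≤ (3 * δ / 4)⁻¹ := by
    refine Complex.norm_le_of_forall_mem_frontier_norm_le isBounded_ball hdc (fun z hz => ?_)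
      (subset_closure (mem_ball_self hr0))
    rw [frontier_ball b hr0.ne'] at hz
    rw [norm_inv]
    refine inv_anti₀ (by positivity) ?_
    have h1 := hδ' z hz
    have h2 := hdiff z (sphere_subset_closedBall hz)
    have h3 : ‖f z - f a‖ ≤ ‖(f z - f a) - (F n z - F n a)‖ + ‖F n z - F n a‖ := by
      calc ‖f z - f a‖ = ‖((f z - f a) - (F n z - F n a)) + (F n z - F n a)‖ := by ring_nf
        _ ≤ _ := norm_add_le _ _
    linarith
  have hbm : b ∈ closedBall b r := mem_closedBall_self hr0.le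
  have h5 := hdiff b hbm
  rw [← hab, sub_self, zero_sub, norm_neg] at h5
  rw [norm_inv] at hmax
  have h6 : 0 < ‖F n b - F n a‖ := norm_pos_iff.2 (hnz b hbm)
  have h7 : 3 * δ / 4 ≤ ‖F n b - F n a‖ := (inv_le_inv₀ h6 (by positivity)).1 hmax
  linarith

end Pool.Agent.EN
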